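import Pool.Agent.H10.IEP.Targets

/-!
# MP_e37c09_lc: row FP, few values
-/

open Ordinal Cardinal Order Set
open scoped ZFSet

universe u

namespace Pool.Agent.H7.IEP

open _root_.HD Pool.Agent.H10.IEP

private theorem MC_univ (μ : Ordinal.{u}) (K : Cardinal.{u}) (hK : K.IsRegular) :
    MC μ K.ord univ := by
  refine ⟨fun a ha => ?_, fun _ _ _ _ _ => mem_univ _⟩
  have hl : IsSuccLimit K.ord := Cardinal.isSuccLimit_ord hK.aleph0_le
  exact ⟨succ a, hl.succ_lt ha, lt_succ a, mem_univ _⟩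

theorem pf_FP (hMA : T_MA.{u}) (hLD : T_LD.{u}) (hVH : T_VH.{u}) (hFQ : T_FQ.{u}) :
    T_FP.{u} := by
  classical
  intro D hD μ K hω hμ hK hDK F hF hFn γ hγ
  obtain ⟨hD1, hD2, hD3, hD4⟩ := hD
  have hK0 : ℵ₀ < K := hD3.trans hDK
  -- the values which are taken on all sets
  have h1 : DO fun w => Ph μ (w 0) F (w 1) :=
    DO.sub (R := fun a w => Ph a (w 0) F (w 1)) μ (hLD F hF)
  have h2 : DO fun w => Ph μ K.ord F (w 0) :=
    DO.sub (R := fun a w => Ph μ a F (w 0)) K.ord h1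
  let X : Set Ordinal.{u} := {c | c < γ ∧ Ph μ K.ord F c}
  have hX : DS X := (DO.ltc 0 γ).and h2
  have hfew : Few D.ord X := by
    rcases (hVH X).2.2.2 D.ord with h | h
    · exact h
    · exfalso
      obtain ⟨F', hF', hFn', h'⟩ := hFQ D.ord F X hF hFn hX
      refine hD4 μ K hω hμ hK hDK F' hF' hFn' ?_
      intro i hi A hA
      obtain ⟨z, hz⟩ := h i hi
      obtain ⟨g, hg1, hg2⟩ := hz.1.2 A hA
      exact ⟨g, hg1, h' _ i hi z hz hg2⟩
  -- for each other value a set on which it is not taken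
  have hch : ∀ c : Ordinal.{u}, ∃ B : Set Ordinal.{u}, MC μ K.ord B ∧ (¬ Ph μ K.ord F c →
      ¬ ∃ g : Ordinal.{u} → Ordinal.{u}, (∀ a < μ, g a < K.ord ∧ g a ∈ B) ∧
        ZFSet.pair (sq μ g) c.toZFSet ∈ F) := by
    intro c
    by_cases hc : Ph μ K.ord F c
    · exact ⟨univ, MC_univ μ K hK, fun h => absurd hc h⟩
    · unfold Pool.Agent.H10.IEP.Ph at hc
      push Not at hc
      obtain ⟨B, hB, hB2⟩ := hc
      refine ⟨B, hB, fun _ => ?_⟩
      rintro ⟨g, hg1, hg2⟩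
      exact hB2 g hg1 hg2
  choose B hB hB2 using hch
  refine ⟨{x | ∀ c < γ, x ∈ B c}, hMA μ K hω hK hK0 γ hγ B fun i _ => hB i, ?_⟩
  obtain ⟨τ, hτ, e, he⟩ := hfew
  refine ⟨τ, hτ, e, fun c hc => he c ?_⟩
  obtain ⟨hcγ, g, hg1, hg2⟩ := hc
  refine ⟨hcγ, ?_⟩
  by_contra hn
  exact hB2 c hn ⟨g, fun a ha => ⟨(hg1 a ha).1, (hg1 a ha).2 c hcγ⟩, hg2⟩

end Pool.Agent.H7.IEP
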